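import Mathlib

set_option autoImplicit false

namespace Pool.Agent.Results.MP_f00063_lc.MiddleCoefficients

open Filter

/-- The sum of two ultrafilters on the positive integers:
`A ∈ add U V` iff `{m | {n | m + n ∈ A} ∈ V} ∈ U`. -/
def add (U V : Ultrafilter ℕ+) : Ultrafilter ℕ+ := U.bind (fun m => V.map (fun n => m + n))

/-- The multiple `a U`, the image of `U` under `n ↦ a n`. -/
def smul (a : ℕ+) (U : Ultrafilter ℕ+) : Ultrafilter ℕ+ := U.map (fun n => a * n)

theorem mem_add {U V : Ultrafilter ℕ+} {A : Set ℕ+} :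
    A ∈ add U V ↔ {m | {n | m + n ∈ A} ∈ V} ∈ U := Iff.rfl

theorem add_assoc' (U V W : Ultrafilter ℕ+) : add (add U V) W = add U (add V W) := by
  apply Ultrafilter.coe_injective
  ext A
  change {m | {n | {k | m + n + k ∈ A} ∈ W} ∈ V} ∈ U ↔ {m | {n | {k | m + (n + k) ∈ A} ∈ W} ∈ V} ∈ U
  simp only [add_assoc]

theorem smul_add' (a : ℕ+) (U V : Ultrafilter ℕ+) : smul a (add U V) = add (smul a U) (smul a V) := by
  apply Ultrafilter.coe_injective
  ext A
  change {m | {n | a * (m + n) ∈ A} ∈ V} ∈ U ↔ {m | {n | a * m + a * n ∈ A} ∈ V} ∈ U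
  simp only [mul_add]

theorem one_smul' (U : Ultrafilter ℕ+) : smul 1 U = U := by
  apply Ultrafilter.coe_injective
  ext A
  change {m | 1 * m ∈ A} ∈ U ↔ A ∈ U
  simp only [one_mul]
  rfl

theorem exists_idem : ∃ U : Ultrafilter ℕ+, add U U = U := by
  let _ := @Ultrafilter.add ℕ+ _
  obtain ⟨U, hU, -⟩ := Hindman.exists_idempotent_ultrafilter_le_FS (M := ℕ+) (Stream'.const 1)
  refine ⟨U, ?_⟩
  apply Ultrafilter.coe_injective
  ext A
  have h := Ultrafilter.eventually_add U U (fun m => m ∈ A)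
  change A ∈ (U.bind fun n => U.map (n + ·)) ↔ A ∈ U
  constructor
  · intro h1
    have h2 : A ∈ (U + U : Ultrafilter ℕ+) := h.2 h1
    rw [hU] at h2
    exact h2
  · intro h1
    rw [← hU] at h1
    exact h.1 h1

/-- The middle coefficient is not determined: there are an ultrafilter `U` and positive integers
`a, b, b', c` with `b ≠ b'` and `a U ⊕ b U ⊕ c U = a U ⊕ b' U ⊕ c U`. -/
theorem result : ∃ (U : Ultrafilter ℕ+) (a b b' c : ℕ+), b ≠ b' ∧
    add (add (smul a U) (smul b U)) (smul c U) = add (add (smul a U) (smul b' U)) (smul c U) := by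
  obtain ⟨U, hU⟩ := exists_idem
  refine ⟨U, 1, 1, 2, 2, by decide, ?_⟩
  rw [one_smul', hU, add_assoc' U (smul 2 U), ← smul_add', hU]

end Pool.Agent.Results.MP_f00063_lc.MiddleCoefficients
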